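import Pool.Agent.Y843.AC.ChW
import Pool.Agent.TH935.GF
import Pool.Agent.TH935.GF2
import Pool.Agent.TH935.GF3

/-!
# Binary Goldbach representations: the exact order of the number of progressions

For every large even `n` and every `D` between a power of `log n` and `n`, the number of the `k`-term
progressions, with differences at most `D`, of the primes `p` with `n - p` a product of at most two primes
has the exact order of magnitude `n D (n / (φ(n) log² n)) ^ k` (Chen's theorem for the progressions). The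
lower bound of Q1 for `r₂(n; ℙ)` is equivalent to the lower bound of this order for the number of the
progressions of representations, for every `k`, every set of even numbers, and for one or all `D`.
-/

set_option autoImplicit false

namespace Pool.Agent.Results.MP_629a14_nt.ProgressionCounts

open Finset Pool.Agent.H560R3.GB

/-- `r₂(n; ℙ)`, the number of ordered representations of `n` as a sum of two primes. -/
def r₂ (n : ℕ) : ℕ := ((antidiagonal n).filter (fun q : ℕ × ℕ => q.1.Prime ∧ q.2.Prime)).card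

/-- The primes `p` in `(y₁, y₂]` such that `n - p` is a prime; that is, the ordered representations
`n = p + q` with `p` in this window. -/
def P (n y₁ y₂ : ℕ) : Finset ℕ := (Ioc y₁ y₂).filter (fun p => p.Prime ∧ (n - p).Prime)

open Classical in
/-- The primes `p > n ^ (1 / 9)` in `(y₁, y₂]` such that `n - p` is a prime or a product of two primes, all
prime factors of `n - p` being larger than `n ^ (1 / 9)`. -/
noncomputable def Ch (n y₁ y₂ : ℕ) : Finset ℕ :=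
  (Ioc y₁ y₂).filter (fun p => p.Prime ∧ (n : ℝ) ^ (1 / 9 : ℝ) < p ∧
    1 ≤ (n - p).primeFactorsList.length ∧ (n - p).primeFactorsList.length ≤ 2 ∧
    ∀ q : ℕ, q.Prime → q ∣ n - p → (n : ℝ) ^ (1 / 9 : ℝ) < q)

/-- `m` and `n - m` are both primes, or neither of them has a prime factor `≤ n ^ (1 / u)`. -/
def Rep (u n m : ℕ) : Prop := (m.Prime ∧ (n - m).Prime) ∨
  ∀ q : ℕ, q.Prime → (q : ℝ) ≤ (n : ℝ) ^ (1 / (u : ℝ)) → ¬ q ∣ m ∧ ¬ q ∣ n - m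

open Classical in
/-- The number of the progressions `a, a + d, …, a + (k - 1) d` in `S` with `1 ≤ d ≤ D`. -/
noncomputable def AP (k D : ℕ) (S : Finset ℕ) : ℕ :=
  ((S ×ˢ Icc 1 D).filter (fun q => ∀ j < k, q.1 + j * q.2 ∈ S)).card

/-- `n / (φ(n) log² n)`, the expected density of the representations of `n`. -/
noncomputable def g (n : ℕ) : ℝ := n / (n.totient * Real.log n ^ 2)

/-- `(y₂ - y₁) D g(n) ^ k`, the expected order of the number of the progressions of `k` representations in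
the window `(y₁, y₂]` with differences at most `D`. -/
noncomputable def E (k n y₁ y₂ D : ℕ) : ℝ := ((y₂ : ℝ) - y₁) * D * g n ^ k

/-- In every window `(y₁, y₂]` in `(0, n]` of a length of at least `n / log ^ A n` and for all `D` between
`log ^ B n` and this length, the number of the progressions of `k` representations of `n`, with differences
at most `D`, is between `c` and `C` times `(y₂ - y₁) D g(n) ^ k`. -/
def Holds (k A B : ℕ) (c C : ℝ) (n : ℕ) : Prop :=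
  ∀ y₁ y₂ D : ℕ, y₁ < y₂ → y₂ ≤ n → (n : ℝ) / Real.log n ^ A ≤ (y₂ : ℝ) - y₁ →
    Real.log n ^ B ≤ D → (D : ℝ) ≤ (y₂ : ℝ) - y₁ →
    c * E k n y₁ y₂ D ≤ AP k D (P n y₁ y₂) ∧ (AP k D (P n y₁ y₂) : ℝ) ≤ C * E k n y₁ y₂ D

/-- The additive energy of order `h` of a finite family of integers `v i`: the number of solutions of
`v (a 1) + ... + v (a h) = v (b 1) + ... + v (b h)`. -/
noncomputable def energy (h : ℕ) {ι : Type} [Fintype ι] (v : ι → ℤ) : ℕ :=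
  Nat.card {q : (Fin h → ι) × (Fin h → ι) // ∑ j, v (q.1 j) = ∑ j, v (q.2 j)}

open Classical in
/-- The number of the members `v i` of the family which are positive and even, and for which `Holds`
fails. -/
noncomputable def exceptions (k A B : ℕ) (c C : ℝ) {ι : Type} [Fintype ι] (v : ι → ℤ) : ℕ :=
  (univ.filter (fun i => 0 < v i ∧ Even (v i) ∧ ¬ Holds k A B c C (v i).toNat)).card

lemma AP_eq (k D : ℕ) (S : Finset ℕ) : AP k D S = (Pool.Agent.Y843.AC.APs k D S).card := rfl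

lemma r₂_eq (n : ℕ) : r₂ n = (P n 0 n).card := by
  unfold r₂ P
  apply card_bij (fun q _ => q.1)
  · intro q hq
    rw [mem_filter, HasAntidiagonal.mem_antidiagonal] at hq
    obtain ⟨h1, h2, h3⟩ := hq
    rw [mem_filter, mem_Ioc]
    refine ⟨⟨h2.pos, by omega⟩, h2, ?_⟩
    have : n - q.1 = q.2 := by omega
    rw [this]
    exact h3
  · intro q hq q' hq' he
    rw [mem_filter, HasAntidiagonal.mem_antidiagonal] at hq hq'
    ext
    · exact he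
    · have h1 := hq.1
      have h2 := hq'.1
      omega
  · intro p hp
    rw [mem_filter, mem_Ioc] at hp
    refine ⟨(p, n - p), ?_, rfl⟩
    rw [mem_filter, HasAntidiagonal.mem_antidiagonal]
    exact ⟨by simp only; omega, hp.2.1, hp.2.2⟩

lemma rep_of {u n m : ℕ} (hm : m ≤ n) (h : Rep u n m) : Pool.Agent.Y843.AC.Rep u n m := by
  rcases h with h | h
  · exact Or.inl h
  · right
    intro q hq hqn
    obtain ⟨h1, h2⟩ := h q hq hqn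
    exact ⟨h1, fun hmod => h2 ((Nat.modEq_iff_dvd' hm).1 hmod.symm)⟩

lemma P_rep {n y₁ y₂ m : ℕ} (u : ℕ) (hm : m ∈ P n y₁ y₂) : Rep u n m := by
  unfold P at hm
  rw [mem_filter] at hm
  exact Or.inl hm.2

/-- (2), upper bound -/
theorem up (k : ℕ) (hk : 1 ≤ k) (u : ℕ) (θ : ℝ) (hu : 1 ≤ u) (hθ : 0 < θ) :
    ∃ C : ℝ, 0 < C ∧ ∃ B n₀ : ℕ, ∀ n : ℕ, n₀ ≤ n → Even n → ∀ y₁ y₂ D : ℕ, y₂ ≤ n →
      (n : ℝ) ^ θ ≤ (y₂ : ℝ) - y₁ → Real.log n ^ B ≤ D → ∀ S : Finset ℕ, S ⊆ Ioc y₁ y₂ →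
      (∀ m ∈ S, Rep u n m) → (AP k D S : ℝ) ≤ C * E k n y₁ y₂ D := by
  obtain ⟨C, hC, B, n₀, h⟩ := Pool.Agent.Y843.AC.rep_up k u hk hu hθ
  refine ⟨C, hC, B, n₀, ?_⟩
  intro n hn hne y₁ y₂ D hy2 hy hD S hS hR
  have h0 : (0 : ℝ) ≤ (n : ℝ) ^ θ := by positivity
  have h12 : y₁ ≤ y₂ := by
    have : (y₁ : ℝ) ≤ y₂ := by linarith
    exact_mod_cast this
  have e : y₁ + (y₂ - y₁) = y₂ := by omega
  have h1 := h n hn hne y₁ (y₂ - y₁) D (by rw [Nat.cast_sub h12]; exact hy) (by omega) hD S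
    (by rw [e]; exact hS) (fun m hm => rep_of (by have := mem_Ioc.1 (hS hm); omega) (hR m hm))
  rw [Nat.cast_sub h12] at h1
  exact h1

/-- (2), lower bounds -/
theorem dn (k : ℕ) (hk : 1 ≤ k) (u : ℕ) (θ δ : ℝ) (hu : 1 ≤ u) (hθ : 0 < θ) (hδ : 0 < δ) :
    ∃ c : ℝ, 0 < c ∧ ∃ B n₀ : ℕ, ∀ n : ℕ, n₀ ≤ n → Even n → ∀ y₁ y₂ D : ℕ, y₂ ≤ n →
      (n : ℝ) ^ θ ≤ (y₂ : ℝ) - y₁ → Real.log n ^ B ≤ D → (D : ℝ) ≤ (y₂ : ℝ) - y₁ →
      ∀ S : Finset ℕ, S ⊆ Ioc y₁ y₂ → (∀ m ∈ S, Rep u n m) →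
      (δ * (((y₂ : ℝ) - y₁) * g n) ≤ S.card → c * E k n y₁ y₂ D ≤ AP k D S) ∧
      (δ * E k n y₁ y₂ D ≤ AP k D S → c * (((y₂ : ℝ) - y₁) * g n) ≤ S.card) := by
  obtain ⟨c, hc, B, n₀, h⟩ := Pool.Agent.Y843.AC.rep_dn k u hk hu hθ hδ
  refine ⟨c, hc, B, n₀, ?_⟩
  intro n hn hne y₁ y₂ D hy2 hy hD hDy S hS hR
  have h0 : (0 : ℝ) ≤ (n : ℝ) ^ θ := by positivity
  have h12 : y₁ ≤ y₂ := by
    have : (y₁ : ℝ) ≤ y₂ := by linarith
    exact_mod_cast this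
  have e : y₁ + (y₂ - y₁) = y₂ := by omega
  have h1 := h n hn hne y₁ (y₂ - y₁) D (by rw [Nat.cast_sub h12]; exact hy) (by omega) hD (by
      have h2 : (D : ℝ) ≤ ((y₂ - y₁ : ℕ) : ℝ) := by rw [Nat.cast_sub h12]; exact hDy
      exact_mod_cast h2) S
    (by rw [e]; exact hS) (fun m hm => rep_of (by have := mem_Ioc.1 (hS hm); omega) (hR m hm))
  rw [Nat.cast_sub h12] at h1
  exact h1

lemma big (B : ℕ) : ∃ n₀ : ℕ, ∀ n : ℕ, n₀ ≤ n → Real.log n ^ B ≤ n := by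
  obtain ⟨n₀, h⟩ := Pool.Agent.Y843.HS.log_pow_le B 1
  exact ⟨n₀, fun n hn => by simpa using h n hn⟩

lemma theta_ev (θ : ℝ) (hθ : 0 < θ) : ∃ n₀ : ℕ, ∀ n : ℕ, n₀ ≤ n → (n : ℝ) ^ (1 / 2 : ℝ) ≤ θ * n := by
  obtain ⟨n₀, h⟩ := exists_nat_ge ((1 / θ) ^ 2)
  refine ⟨max n₀ 1, fun n hn => ?_⟩
  have hn1 : (1 : ℝ) ≤ n := by exact_mod_cast (le_max_right _ _).trans hn
  have hn0 : (0 : ℝ) < n := by linarith
  have h1 : (1 / θ) ^ 2 ≤ n := h.trans (by exact_mod_cast (le_max_left _ _).trans hn)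
  have h2 : 1 / θ ≤ (n : ℝ) ^ (1 / 2 : ℝ) := by
    rw [← Real.sqrt_eq_rpow]
    exact Real.le_sqrt_of_sq_le h1
  rw [div_le_iff₀ hθ] at h2
  have h3 : (n : ℝ) = (n : ℝ) ^ (1 / 2 : ℝ) * (n : ℝ) ^ (1 / 2 : ℝ) := by
    rw [← Real.rpow_add hn0]
    norm_num
  have h4 : (0 : ℝ) ≤ (n : ℝ) ^ (1 / 2 : ℝ) := by positivity
  calc (n : ℝ) ^ (1 / 2 : ℝ) = 1 * (n : ℝ) ^ (1 / 2 : ℝ) := by ring
    _ ≤ ((n : ℝ) ^ (1 / 2 : ℝ) * θ) * (n : ℝ) ^ (1 / 2 : ℝ) := mul_le_mul_of_nonneg_right h2 h4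
    _ = θ * ((n : ℝ) ^ (1 / 2 : ℝ) * (n : ℝ) ^ (1 / 2 : ℝ)) := by ring
    _ = θ * n := by rw [← h3]

lemma log_ge_one {n : ℕ} (hn : 3 ≤ n) : 1 ≤ Real.log n := by
  have h1 : Real.exp 1 ≤ n := by
    have h2 : (3 : ℝ) ≤ n := by exact_mod_cast hn
    linarith [Real.exp_one_lt_d9]
  rw [← Real.log_exp 1]
  exact Real.log_le_log (Real.exp_pos 1) h1

/-- (1) -/
theorem chen (k : ℕ) (hk : 1 ≤ k) : ∃ c C : ℝ, 0 < c ∧ 0 < C ∧ ∃ B : ℕ, ∀ θ : ℝ, 0 < θ →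
    ∃ n₀ : ℕ, ∀ n : ℕ, n₀ ≤ n → Even n → ∀ y₁ y₂ D : ℕ, y₂ ≤ n → θ * n ≤ (y₂ : ℝ) - y₁ →
      Real.log n ^ B ≤ D → (D : ℝ) ≤ (y₂ : ℝ) - y₁ →
      c * E k n y₁ y₂ D ≤ AP k D (Ch n y₁ y₂) ∧ (AP k D (Ch n y₁ y₂) : ℝ) ≤ C * E k n y₁ y₂ D := by
  classical
  obtain ⟨δ, hδ, hch⟩ := Pool.Agent.Y843.AC.chw
  obtain ⟨C, hC, B₁, n₁, h1⟩ := Pool.Agent.Y843.AC.rep_up k 9 hk (by norm_num) (θ := 1 / 2) (by norm_num)
  obtain ⟨c, hc, B₂, n₂, h2⟩ := Pool.Agent.Y843.AC.rep_dn k 9 hk (by norm_num) (θ := 1 / 2) (by norm_num) hδ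
  refine ⟨c, C, hc, hC, max B₁ B₂, fun θ hθ => ?_⟩
  obtain ⟨n₃, h3⟩ := hch θ hθ
  obtain ⟨n₄, h4⟩ := theta_ev θ hθ
  refine ⟨max (max n₁ n₂) (max (max n₃ n₄) 3), ?_⟩
  intro n hn hne y₁ y₂ D hy2 hy hD hDy
  have e1 : n₁ ≤ n := by omega
  have e2 : n₂ ≤ n := by omega
  have e3 : n₃ ≤ n := by omega
  have e4 : n₄ ≤ n := by omega
  have e5 : 3 ≤ n := by omega
  have hl := log_ge_one e5
  have h5 := h4 n e4
  have h0 : (0 : ℝ) ≤ (n : ℝ) ^ (1 / 2 : ℝ) := by positivity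
  have h12 : y₁ ≤ y₂ := by
    have : (y₁ : ℝ) ≤ y₂ := by linarith
    exact_mod_cast this
  have e : y₁ + (y₂ - y₁) = y₂ := by omega
  have hS : Ch n y₁ y₂ ⊆ Ioc y₁ (y₁ + (y₂ - y₁)) := by
    rw [e]
    exact filter_subset _ _
  have hR : ∀ m ∈ Ch n y₁ y₂, Pool.Agent.Y843.AC.Rep 9 n m := fun m hm =>
    Pool.Agent.Y843.AC.ChW_rep hy2 hm
  have h6 := h1 n e1 hne y₁ (y₂ - y₁) D (by rw [Nat.cast_sub h12]; linarith) (by omega)
    ((pow_le_pow_right₀ hl (le_max_left _ _)).trans hD) _ hS hR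
  have h7 := (h2 n e2 hne y₁ (y₂ - y₁) D (by rw [Nat.cast_sub h12]; linarith) (by omega)
    ((pow_le_pow_right₀ hl (le_max_right _ _)).trans hD) (by
      have h2 : (D : ℝ) ≤ ((y₂ - y₁ : ℕ) : ℝ) := by rw [Nat.cast_sub h12]; exact hDy
      exact_mod_cast h2) _ hS hR).1 (by
      rw [Nat.cast_sub h12]
      exact h3 n e3 hne y₁ y₂ hy2 hy)
  rw [Nat.cast_sub h12] at h6 h7
  exact ⟨h7, h6⟩

/-- (3) -/
theorem order (k : ℕ) (hk : 1 ≤ k) (M : Set ℕ) (hM : ∀ n ∈ M, Even n) :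
    ((∃ c : ℝ, 0 < c ∧ ∃ n₀ : ℕ, ∀ n ∈ M, n₀ ≤ n → c * (n * g n) ≤ r₂ n) ↔
      ∃ c : ℝ, 0 < c ∧ ∃ B n₀ : ℕ, ∀ n ∈ M, n₀ ≤ n → ∀ D : ℕ, Real.log n ^ B ≤ D → D ≤ n →
        c * E k n 0 n D ≤ AP k D (P n 0 n)) ∧
    ((∃ c : ℝ, 0 < c ∧ ∃ n₀ : ℕ, ∀ n ∈ M, n₀ ≤ n → c * (n * g n) ≤ r₂ n) ↔
      ∃ c : ℝ, 0 < c ∧ ∀ B : ℕ, ∃ n₀ : ℕ, ∀ n ∈ M, n₀ ≤ n → ∃ D : ℕ, Real.log n ^ B ≤ D ∧ D ≤ n ∧
        c * E k n 0 n D ≤ AP k D (P n 0 n)) := by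
  classical
  have hsub : ∀ n : ℕ, P n 0 n ⊆ Ioc 0 n := fun n => filter_subset _ _
  have hw : ∀ n : ℕ, (n : ℝ) ^ (1 : ℝ) ≤ (n : ℝ) - (0 : ℕ) := by
    intro n
    rw [Real.rpow_one]
    simp
  have a1 : (∃ c : ℝ, 0 < c ∧ ∃ n₀ : ℕ, ∀ n ∈ M, n₀ ≤ n → c * (n * g n) ≤ r₂ n) →
      ∃ c : ℝ, 0 < c ∧ ∃ B n₀ : ℕ, ∀ n ∈ M, n₀ ≤ n → ∀ D : ℕ, Real.log n ^ B ≤ D → D ≤ n →
        c * E k n 0 n D ≤ AP k D (P n 0 n) := by
    rintro ⟨δ, hδ, n₀, h⟩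
    obtain ⟨c, hc, B, n₁, h1⟩ := dn k hk 1 1 δ le_rfl one_pos hδ
    refine ⟨c, hc, B, max n₀ n₁, ?_⟩
    intro n hnM hn D hD hDn
    refine (h1 n ((le_max_right _ _).trans hn) (hM n hnM) 0 n D le_rfl (hw n) hD
      (by simpa using hDn) (P n 0 n) (hsub n) (fun m hm => P_rep 1 hm)).1 ?_
    rw [← r₂_eq]
    simpa using h n hnM ((le_max_left _ _).trans hn)
  have a2 : (∃ c : ℝ, 0 < c ∧ ∃ B n₀ : ℕ, ∀ n ∈ M, n₀ ≤ n → ∀ D : ℕ, Real.log n ^ B ≤ D → D ≤ n →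
        c * E k n 0 n D ≤ AP k D (P n 0 n)) →
      ∃ c : ℝ, 0 < c ∧ ∀ B : ℕ, ∃ n₀ : ℕ, ∀ n ∈ M, n₀ ≤ n → ∃ D : ℕ, Real.log n ^ B ≤ D ∧ D ≤ n ∧
        c * E k n 0 n D ≤ AP k D (P n 0 n) := by
    rintro ⟨c, hc, B₀, n₀, h⟩
    refine ⟨c, hc, fun B => ?_⟩
    obtain ⟨n₁, h1⟩ := big B
    obtain ⟨n₂, h2⟩ := big B₀
    refine ⟨max n₀ (max n₁ n₂), ?_⟩
    intro n hnM hn
    refine ⟨n, h1 n (by omega), le_rfl, h n hnM (by omega) n (h2 n (by omega)) le_rfl⟩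
  have a3 : (∃ c : ℝ, 0 < c ∧ ∀ B : ℕ, ∃ n₀ : ℕ, ∀ n ∈ M, n₀ ≤ n → ∃ D : ℕ, Real.log n ^ B ≤ D ∧
        D ≤ n ∧ c * E k n 0 n D ≤ AP k D (P n 0 n)) →
      ∃ c : ℝ, 0 < c ∧ ∃ n₀ : ℕ, ∀ n ∈ M, n₀ ≤ n → c * (n * g n) ≤ r₂ n := by
    rintro ⟨δ, hδ, h⟩
    obtain ⟨c, hc, B, n₁, h1⟩ := dn k hk 1 1 δ le_rfl one_pos hδ
    obtain ⟨n₀, h0⟩ := h B
    refine ⟨c, hc, max n₀ n₁, ?_⟩
    intro n hnM hn
    obtain ⟨D, hD, hDn, hE⟩ := h0 n hnM ((le_max_left _ _).trans hn)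
    have h2 := (h1 n ((le_max_right _ _).trans hn) (hM n hnM) 0 n D le_rfl (hw n) hD
      (by simpa using hDn) (P n 0 n) (hsub n) (fun m hm => P_rep 1 hm)).2 hE
    rw [← r₂_eq] at h2
    simpa using h2
  exact ⟨⟨a1, fun h => a3 (a2 h)⟩, ⟨fun h => a2 (a1 h), a3⟩⟩

lemma P_eq (n y₁ y₂ : ℕ) : (P n y₁ y₂).card = Pool.Agent.W93.PG.cnt n y₁ y₂ := rfl

/-- (4) -/
theorem families (h k A : ℕ) (hh : 1 ≤ h) (hk : 1 ≤ k) :
    ∃ c C : ℝ, 0 < c ∧ 0 < C ∧ ∃ B : ℕ, ∀ B' K U : ℕ, ∃ N₀ : ℕ, ∀ N : ℕ, N₀ ≤ N →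
      ∀ (ι : Type) [Fintype ι] (v : ι → ℤ), (∀ i, v i ≤ B' * N) →
      (energy h v : ℝ) * N ≤ Real.log N ^ K * (Fintype.card ι : ℝ) ^ (2 * h) →
      (exceptions k A B c C v : ℝ) ≤ Fintype.card ι / Real.log N ^ U := by
  classical
  have hC2 : 1 / 2 ≤ C₂ := Pool.Agent.W93.GB.C2_half
  obtain ⟨C, hC, B₁, n₁, hup⟩ := up k hk 1 (1 / 2) le_rfl (by norm_num)
  obtain ⟨c, hc, B₂, n₂, hdn⟩ := dn k hk 1 (1 / 2) (1 / 4) le_rfl (by norm_num) (by norm_num)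
  refine ⟨c, C, hc, hC, max B₁ B₂, ?_⟩
  intro B' K U
  obtain ⟨n3, h3⟩ := Pool.Agent.Y843.HS.log_pow_le (2 * A) 1
  have hP : ∀ m : ℕ, n₁ + n₂ + n3 + 4 ≤ m → 2 ∣ m → Pool.Agent.W93.PG.WinP (1 / 2) A m →
      Holds k A (max B₁ B₂) c C m := by
    intro m hm h2m hwin y₁ y₂ D h12 hy2 hΔ hD hDy
    have a2 := h3 m (by omega)
    have hm4 : (4 : ℝ) ≤ m := by exact_mod_cast (by omega : 4 ≤ m)
    have hm0 : (0 : ℝ) < m := by linarith
    have hmne : m ≠ 0 := by omega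
    obtain ⟨s1, s2⟩ := Pool.Agent.TH935.GF.sing_tot m hmne h2m
    have hφ : (0 : ℝ) < m.totient := by exact_mod_cast Nat.totient_pos.2 (Nat.pos_of_ne_zero hmne)
    have hl1 := log_ge_one (show 3 ≤ m by omega)
    have hw := hwin y₁ y₂ h12 hy2 hΔ
    rw [← P_eq m y₁ y₂] at hw
    have hy : (0 : ℝ) < (y₂ : ℝ) - y₁ := by
      have : (y₁ : ℝ) < y₂ := by exact_mod_cast h12
      linarith
    obtain ⟨M, hM⟩ : ∃ M, M = Real.log (m : ℝ) := ⟨_, rfl⟩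
    have hM0 : 0 < M := by rw [hM]; linarith
    obtain ⟨Q, hQ⟩ : ∃ Q : ℝ, Q = ((y₂ : ℝ) - y₁) / Real.log m ^ 2 := ⟨_, rfl⟩
    have hQ0 : 0 < Q := by
      rw [hQ, ← hM]
      positivity
    have e1 : sing m * ((y₂ : ℝ) - y₁) / Real.log m ^ 2 = sing m * Q := by rw [hQ, mul_div_assoc]
    have e2 : ((y₂ : ℝ) - y₁) * g m = m / m.totient * Q := by
      unfold g
      rw [hQ]
      field_simp
    rw [e1] at hw
    have hr0 : 0 < (m : ℝ) / m.totient := by positivity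
    have hs0 : 0 ≤ sing m := le_trans (by positivity) s1
    have hsQ : 0 ≤ sing m * Q := by positivity
    have hw2 := abs_le.1 hw
    have t1 : C₂ * (((y₂ : ℝ) - y₁) * g m) ≤ sing m * Q := by
      rw [e2, ← mul_assoc]
      exact mul_le_mul_of_nonneg_right s1 hQ0.le
    have hGW0 : 0 < ((y₂ : ℝ) - y₁) * g m := by rw [e2]; positivity
    have b1 : 1 / 4 * (((y₂ : ℝ) - y₁) * g m) ≤ (P m y₁ y₂).card := by
      have h4 : 1 / 2 * (1 / 2 * (((y₂ : ℝ) - y₁) * g m)) ≤ 1 / 2 * (C₂ * (((y₂ : ℝ) - y₁) * g m)) := by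
        apply mul_le_mul_of_nonneg_left _ (by norm_num)
        exact mul_le_mul_of_nonneg_right hC2 hGW0.le
      linarith [hw2.1]
    have hlen : (m : ℝ) ^ (1 / 2 : ℝ) ≤ (y₂ : ℝ) - y₁ := by
      refine le_trans ?_ hΔ
      rw [← hM] at a2 ⊢
      rw [one_mul, mul_comm 2 A, pow_mul] at a2
      have h4 : M ^ A ≤ (m : ℝ) ^ (1 / 2 : ℝ) := by
        rw [← Real.sqrt_eq_rpow]
        exact Real.le_sqrt_of_sq_le a2
      rw [le_div_iff₀ (by positivity)]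
      calc (m : ℝ) ^ (1 / 2 : ℝ) * M ^ A ≤ (m : ℝ) ^ (1 / 2 : ℝ) * (m : ℝ) ^ (1 / 2 : ℝ) :=
            mul_le_mul_of_nonneg_left h4 (by positivity)
        _ = m := by rw [← Real.rpow_add hm0]; norm_num
    have hme : Even m := even_iff_two_dvd.2 h2m
    have hsub : P m y₁ y₂ ⊆ Ioc y₁ y₂ := filter_subset _ _
    constructor
    · exact (hdn m (by omega) hme y₁ y₂ D hy2 hlen
        ((pow_le_pow_right₀ hl1 (le_max_right _ _)).trans hD) hDy (P m y₁ y₂) hsub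
        (fun x hx => P_rep 1 hx)).1 b1
    · exact hup m (by omega) hme y₁ y₂ D hy2 hlen
        ((pow_le_pow_right₀ hl1 (le_max_left _ _)).trans hD) (P m y₁ y₂) hsub
        (fun x hx => P_rep 1 hx)
  obtain ⟨N₀, h0⟩ := Pool.Agent.TH935.GF.transfer h B' K U (Holds k A (max B₁ B₂) c C) (by
    intro B' K U
    exact Pool.Agent.TH935.GF.fam_win h B' K A U (n₁ + n₂ + n3 + 4) hh (1 / 2) (by norm_num)
      (Holds k A (max B₁ B₂) c C) hP)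
  refine ⟨N₀, fun N hN ι _ v hv hE => ?_⟩
  unfold exceptions
  refine h0 N hN ι v hv hE _ ?_
  intro i hi
  rw [mem_filter] at hi
  exact hi.2

/-- Let `k ≥ 1`.

1. There are `0 < c ≤ C` and `B` such that for every `θ > 0`, every sufficiently large even `n`, every window
  `(y₁, y₂]` in `(0, n]` of a length of at least `θ n` and every `D` between `log ^ B n` and this length, the
  number of the progressions of `k` terms, with differences at most `D`, of the primes `p` of the window for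
  which `n - p` is a prime or a product of two primes (`p` and these primes being larger than `n ^ (1/9)`) is
  between `c` and `C` times `(y₂ - y₁) D (n / (φ(n) log² n)) ^ k`.
2. Let `u ≥ 1` and `θ > 0`. For every large even `n`, every window `(y₁, y₂]` in `(0, n]` of a length of at
  least `n ^ θ` and every `D ≥ log ^ B n`, every set `S` of numbers `m` of the window such that
  `m` and `n - m` are primes, or have no prime factors `≤ n ^ (1/u)`, has at most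
  `C (y₂ - y₁) D (n / (φ(n) log² n)) ^ k` progressions of `k` terms with differences at most `D`; and for
  every `δ > 0` it has at least `c (y₂ - y₁) D (n / (φ(n) log² n)) ^ k` of them (`D` being at most the length
  of the window) if it has at least `δ (y₂ - y₁) n / (φ(n) log² n)` elements, and conversely it has at least
  `c (y₂ - y₁) n / (φ(n) log² n)` elements if it has at least `δ (y₂ - y₁) D (n / (φ(n) log² n)) ^ k` of these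
  progressions.
3. Hence, for every set `M` of even numbers: the lower bound of Q1, `r₂(n; ℙ) ≫ n² / (φ(n) log² n)`, for the
  large `n` of `M`, is equivalent to the lower bound of the order `n D (n / (φ(n) log² n)) ^ k` for the number
  of the progressions of `k` primes `p` with `n - p` prime, with differences at most `D`, for all `D` between
  a power of `log n` and `n`, and also to the same lower bound for a single `D` for every `n`.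
4. Let `h ≥ 1` and `A`. There are `c, C > 0` and `B` such that for all `B'`, `K`, `U` and all large `N` the
  following holds for every finite family of integers `v i ≤ B' N`, `i ∈ ι`, whose additive energy of
  order `h` is at most `log ^ K N (#ι) ^ (2 h) / N` (the family may have as few as `N ^ (1 / h)` members):
  all the positive even members `n`, with at most `#ι / log ^ U N` exceptions, have the property `Holds`: in
  all windows of a length of at least `n / log ^ A n` and for all `D` between `log ^ B n` and this length, the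
  number of the progressions of `k` primes `p` with `n - p` prime, with differences at most `D`, is between
  `c` and `C` times `(y₂ - y₁) D (n / (φ(n) log² n)) ^ k`. -/
theorem result (k : ℕ) (hk : 1 ≤ k) :
    (∃ c C : ℝ, 0 < c ∧ 0 < C ∧ ∃ B : ℕ, ∀ θ : ℝ, 0 < θ →
      ∃ n₀ : ℕ, ∀ n : ℕ, n₀ ≤ n → Even n → ∀ y₁ y₂ D : ℕ, y₂ ≤ n → θ * n ≤ (y₂ : ℝ) - y₁ →
        Real.log n ^ B ≤ D → (D : ℝ) ≤ (y₂ : ℝ) - y₁ →
        c * E k n y₁ y₂ D ≤ AP k D (Ch n y₁ y₂) ∧ (AP k D (Ch n y₁ y₂) : ℝ) ≤ C * E k n y₁ y₂ D) ∧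
    (∀ (u : ℕ) (θ : ℝ), 1 ≤ u → 0 < θ →
      (∃ C : ℝ, 0 < C ∧ ∃ B n₀ : ℕ, ∀ n : ℕ, n₀ ≤ n → Even n → ∀ y₁ y₂ D : ℕ, y₂ ≤ n →
        (n : ℝ) ^ θ ≤ (y₂ : ℝ) - y₁ → Real.log n ^ B ≤ D → ∀ S : Finset ℕ, S ⊆ Ioc y₁ y₂ →
        (∀ m ∈ S, Rep u n m) → (AP k D S : ℝ) ≤ C * E k n y₁ y₂ D) ∧
      ∀ δ : ℝ, 0 < δ → ∃ c : ℝ, 0 < c ∧ ∃ B n₀ : ℕ, ∀ n : ℕ, n₀ ≤ n → Even n → ∀ y₁ y₂ D : ℕ, y₂ ≤ n →
        (n : ℝ) ^ θ ≤ (y₂ : ℝ) - y₁ → Real.log n ^ B ≤ D → (D : ℝ) ≤ (y₂ : ℝ) - y₁ →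
        ∀ S : Finset ℕ, S ⊆ Ioc y₁ y₂ → (∀ m ∈ S, Rep u n m) →
        (δ * (((y₂ : ℝ) - y₁) * g n) ≤ S.card → c * E k n y₁ y₂ D ≤ AP k D S) ∧
        (δ * E k n y₁ y₂ D ≤ AP k D S → c * (((y₂ : ℝ) - y₁) * g n) ≤ S.card)) ∧
    (∀ M : Set ℕ, (∀ n ∈ M, Even n) →
      ((∃ c : ℝ, 0 < c ∧ ∃ n₀ : ℕ, ∀ n ∈ M, n₀ ≤ n → c * (n * g n) ≤ r₂ n) ↔
        ∃ c : ℝ, 0 < c ∧ ∃ B n₀ : ℕ, ∀ n ∈ M, n₀ ≤ n → ∀ D : ℕ, Real.log n ^ B ≤ D → D ≤ n →
          c * E k n 0 n D ≤ AP k D (P n 0 n)) ∧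
      ((∃ c : ℝ, 0 < c ∧ ∃ n₀ : ℕ, ∀ n ∈ M, n₀ ≤ n → c * (n * g n) ≤ r₂ n) ↔
        ∃ c : ℝ, 0 < c ∧ ∀ B : ℕ, ∃ n₀ : ℕ, ∀ n ∈ M, n₀ ≤ n → ∃ D : ℕ, Real.log n ^ B ≤ D ∧ D ≤ n ∧
          c * E k n 0 n D ≤ AP k D (P n 0 n))) ∧
    (∀ h A : ℕ, 1 ≤ h → ∃ c C : ℝ, 0 < c ∧ 0 < C ∧ ∃ B : ℕ, ∀ B' K U : ℕ, ∃ N₀ : ℕ, ∀ N : ℕ, N₀ ≤ N →
      ∀ (ι : Type) [Fintype ι] (v : ι → ℤ), (∀ i, v i ≤ B' * N) →
      (energy h v : ℝ) * N ≤ Real.log N ^ K * (Fintype.card ι : ℝ) ^ (2 * h) →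
      (exceptions k A B c C v : ℝ) ≤ Fintype.card ι / Real.log N ^ U) :=
  ⟨chen k hk, fun u θ hu hθ => ⟨up k hk u θ hu hθ, fun δ hδ => dn k hk u θ δ hu hθ hδ⟩,
    fun M hM => order k hk M hM, fun h A hh => families h k A hh hk⟩

end Pool.Agent.Results.MP_629a14_nt.ProgressionCounts
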