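import Mathlib
import Pool.Agent.Y822.R.Out

set_option autoImplicit false

/-!
# Simultaneous Goldbach representations

For all but few of the `k`-element subsets `M` of an arbitrary, also sparse, set of even numbers in `(N, 2N]` the
number of primes `p ≤ N` for which all the numbers `m - p`, `m ∈ M`, have at most two prime factors has at least
the conjectured order of magnitude for primes, and the number of primes `p ≤ N` for which they all are prime is at
most `4 ^ k + ε` times the conjectured number.
-/

namespace Pool.Agent.Results.MP_629a14_nt.SimultaneousGoldbach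

open Finset Filter Pool.Agent.H387R2.Uni

open Classical in
/-- the number of primes `p ≤ N` such that all the numbers `m - p`, `m ∈ M`, are prime -/
noncomputable def twoPrimes (M : Finset ℕ) (N : ℕ) : ℕ :=
  ((Icc 1 N).filter (fun p => p.Prime ∧ ∀ m ∈ M, (m - p).Prime)).card

open Classical in
/-- the number of primes `p ≤ N` such that all the numbers `m - p`, `m ∈ M`, have at most two prime factors,
counted with multiplicity, all of them at least `N ^ (1/7)` -/
noncomputable def primeAndAlmostPrime (M : Finset ℕ) (N : ℕ) : ℕ :=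
  ((Icc 1 N).filter (fun p => p.Prime ∧ ∀ m ∈ M, (m - p).primeFactorsList.length ≤ 2 ∧
    ∀ q ∈ (m - p).primeFactors, (N : ℝ) ^ (1 / 7 : ℝ) ≤ q)).card

open Classical in
theorem result :
    -- the conjectured constants are convergent products, positive for admissible sets
    (∀ M : Finset ℕ, HasProd (fun p : Nat.Primes => locT (insert 0 M) p) (CT (insert 0 M)) ∧
      (Adm (insert 0 M) → 0 < CT (insert 0 M))) ∧
    -- both bounds, outside few sets of even numbers, with an absolute constant `c`
    ∃ c : ℝ, 0 < c ∧ ∀ k : ℕ, 1 ≤ k → ∀ ε : ℝ, 0 < ε → ∃ B N₀ : ℕ, ∀ N : ℕ, N₀ ≤ N → Even N →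
      ∀ A : Finset ℕ, (∀ m ∈ A, N < m ∧ m ≤ 2 * N) →
        (((A.powersetCard k).filter (fun M => Adm (insert 0 M) ∧
          ¬ (c ^ k * CT (insert 0 M) * (N / Real.log N ^ (k + 1)) ≤ primeAndAlmostPrime M N ∧
            twoPrimes M N ≤ (4 ^ k + ε) * CT (insert 0 M) * (N / Real.log N ^ (k + 1))))).card : ℝ) ≤
          A.card.choose (k - 1) * Real.log N ^ B := by
  refine ⟨fun H => ⟨CT_hasProd _, fun hA => ?_⟩, ?_⟩
  · rw [← CT_en]
    apply Pool.Agent.H386R2.HL.singularSeries_pos (en_inj _)
    intro p hp
    rw [nu_en]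
    exact hA p hp
  · obtain ⟨c, hc, hmain⟩ := Pool.Agent.Y822.R.both
    refine ⟨c, hc, fun k hk ε hε => ?_⟩
    obtain ⟨k, rfl⟩ : ∃ j, k = j + 1 := ⟨k - 1, by omega⟩
    obtain ⟨B, hB⟩ := hmain k ε hε
    obtain ⟨N₀, hN₀⟩ := eventually_atTop.1 hB
    refine ⟨B, N₀, fun N hN hev A hA => ?_⟩
    rw [Nat.add_sub_cancel]
    have h := hN₀ N hN hev A hA
    have e : ∀ M : Finset ℕ, Pool.Agent.Y822.R.golH M N = twoPrimes M N := by
      intro M
      unfold Pool.Agent.Y822.R.golH twoPrimes
      exact Pool.Agent.Y822.R.card_dec _ _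
    have e2 : ∀ M : Finset ℕ, Pool.Agent.Y822.R.gol2 M N = primeAndAlmostPrime M N := by
      intro M
      unfold Pool.Agent.Y822.R.gol2 primeAndAlmostPrime
      exact Pool.Agent.Y822.R.card_dec _ _
    simp only [e, e2] at h
    exact h

end Pool.Agent.Results.MP_629a14_nt.SimultaneousGoldbach
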