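import Pool.Agent.Y820.LF.Fin
import Pool.Agent.TH894.SM0

/-!
# The order of magnitude of the Goldbach representation numbers on a translate of an arbitrary set

EVERY finite set `T` of even integers between `X / m` and `X` (of any size) has a translate `T + d`, where `d` is a
sum of at most `K` different powers of `b` and `d ≤ θ X`, such that all but at most `ρ |T|` elements `n` of the
translate satisfy the asymptotic formula of Hardy and Littlewood for the number of representations as a sum of two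
primes with a relative error of at most `ε` (and so this number has the order of magnitude `n² / (φ(n) log² n)`);
`K` depends on `b, m, ε, ρ, θ` alone. For sets with one element this is a theorem of the type of Linnik (one integer
and a bounded number of powers), and for the set of all even integers it contains that almost all even integers
have the predicted number of representations (van der Corput, Chudakov, Estermann), up to `ε` and `ρ`.

Definitions used from `Pool.Agent.H560R3.GB` (starting files): `C₂`: the twin prime constant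
`∏_{p > 2} (1 - 1 / (p - 1) ^ 2)`; `sing n`: the singular series `2 C₂ ∏_{p ∣ n, p > 2} (p - 1) / (p - 2)`; `g n`: the
number of ordered representations of `n` as a sum of two primes (`r₂(n; ℙ)` in the problem);
`HL n = sing n * n / log ^ 2 n`: the prediction of Hardy and Littlewood for `g n`.

Libraries: W93, TH892, TH894, H373R2, H560R3 (starting files), Y820 (helper820; tasks by helper692, helper71,
helper514, helper515, helper484).
-/

set_option autoImplicit false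

namespace Pool.Agent.Results.MP_629a14_nt.TranslatesOfArbitrarySets

open Finset Filter Pool.Agent.H560R3.GB

/-- (1) the number of representations of `n` as a sum of two primes agrees with the prediction of Hardy
and Littlewood up to a relative error of at most `ε`; (2) it lies between `(1 - ε) C₂` and `1 + ε` times
`n² / (φ(n) log² n)`. -/
def Holds (ε : ℝ) (n : ℕ) : Prop :=
  |(g n : ℝ) - HL n| ≤ ε * HL n ∧
  (1 - ε) * C₂ * ((n : ℝ) ^ 2 / (n.totient * Real.log n ^ 2)) ≤ g n ∧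
  (g n : ℝ) ≤ (1 + ε) * ((n : ℝ) ^ 2 / (n.totient * Real.log n ^ 2))

lemma C₂_nonneg : 0 ≤ C₂ := by
  unfold C₂
  apply Real.iInf_nonneg
  intro z
  apply prod_nonneg
  intro p hp
  rw [mem_filter, mem_Icc] at hp
  exact (Pool.Agent.TH894.SM.fac_pos p hp.1.1).le

lemma holds_of (ε : ℝ) (hε : 0 < ε) (n : ℕ) (hn : 2 ≤ n) (h2 : 2 ∣ n) (h1 : |(g n : ℝ) - HL n| ≤ ε * HL n) : Holds ε n := by
  have hn0 : n ≠ 0 := by omega
  have hnr : (0 : ℝ) < n := by exact_mod_cast Nat.pos_of_ne_zero hn0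
  have hl : 0 < Real.log n := Real.log_pos (by exact_mod_cast (by omega : 1 < n))
  have ht : (0 : ℝ) < n.totient := by exact_mod_cast Nat.totient_pos.2 (Nat.pos_of_ne_zero hn0)
  obtain ⟨s1, s2⟩ := Pool.Agent.TH894.SM.sing_tot n hn0 h2
  have hC := C₂_nonneg
  obtain ⟨Q, hQ⟩ : ∃ Q : ℝ, Q = n / Real.log n ^ 2 := ⟨_, rfl⟩
  have hQ0 : 0 < Q := by rw [hQ]; positivity
  have e : (n : ℝ) ^ 2 / (n.totient * Real.log n ^ 2) = n / n.totient * Q := by
    rw [hQ]
    field_simp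
  have hHL : HL n = sing n * Q := by
    unfold HL
    rw [hQ]
  have hR0 : 0 < (n : ℝ) / n.totient := by positivity
  refine ⟨h1, ?_, ?_⟩
  · rw [e]
    rw [hHL, abs_le] at h1
    rcases le_or_gt ε 1 with hε1 | hε1
    · have h3 : (1 - ε) * (C₂ * (n / n.totient) * Q) ≤ (1 - ε) * (sing n * Q) := by
        apply mul_le_mul_of_nonneg_left _ (by linarith)
        exact mul_le_mul_of_nonneg_right s1 hQ0.le
      have e2 : (1 - ε) * C₂ * (n / n.totient * Q) = (1 - ε) * (C₂ * (n / n.totient) * Q) := by ring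
      rw [e2]
      linarith [h1.1]
    · have h3 : (1 - ε) * C₂ * (n / n.totient * Q) ≤ 0 := by
        apply mul_nonpos_of_nonpos_of_nonneg _ (by positivity)
        exact mul_nonpos_of_nonpos_of_nonneg (by linarith) hC
      exact h3.trans (Nat.cast_nonneg _)
  · rw [e]
    rw [hHL, abs_le] at h1
    have h3 : (1 + ε) * (sing n * Q) ≤ (1 + ε) * (n / n.totient * Q) := by
      apply mul_le_mul_of_nonneg_left _ (by linarith)
      exact mul_le_mul_of_nonneg_right s2 hQ0.le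
    linarith [h1.2]

/-- the coefficients and the constants of the forms `p`, `a - p` -/
lemma nu_eq (a p : ℕ) (hp : p.Prime) :
    Pool.Agent.Y820.LF.nuF (Pool.Agent.Y820.LF.C1 (fun _ : Fin 1 => (-1 : ℤ))) (Pool.Agent.Y820.LF.H1 (fun _ : Fin 1 => (a : ℤ))) p =
      if p ∣ a then 1 else 2 := by
  rw [Pool.Agent.Y820.LF.nuF_C1]
  have hp0 := hp.pos
  have h1 : (range p).filter (fun r : ℕ => (p : ℤ) ∣ (r : ℤ) ∨ ∃ _ : Fin 1, (p : ℤ) ∣ -1 * (r : ℤ) + (a : ℤ)) = {0, a % p} := by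
    ext r
    rw [mem_filter, mem_range, mem_insert, mem_singleton]
    constructor
    · rintro ⟨hr, h | ⟨_, h⟩⟩
      · left
        rw [Int.natCast_dvd_natCast] at h
        exact Nat.eq_zero_of_dvd_of_lt h hr
      · right
        have h3 : a ≡ r [MOD p] := by
          apply (Nat.modEq_iff_dvd).2
          have e : (r : ℤ) - (a : ℤ) = -(-1 * (r : ℤ) + (a : ℤ)) := by ring
          rw [e]
          exact (dvd_neg).2 h
        unfold Nat.ModEq at h3
        rw [h3, Nat.mod_eq_of_lt hr]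
    · rintro (h | h)
      · subst h
        exact ⟨hp0, Or.inl (by simp)⟩
      · refine ⟨by rw [h]; exact Nat.mod_lt _ hp0, Or.inr ⟨0, ?_⟩⟩
        have h2 : r ≡ a [MOD p] := by
          rw [h]
          exact Nat.mod_modEq _ _
        have h3 := (Nat.modEq_iff_dvd).1 h2
        have e : -1 * (r : ℤ) + (a : ℤ) = (a : ℤ) - (r : ℤ) := by ring
        rw [e]
        exact h3
  rw [h1]
  by_cases h2 : p ∣ a
  · rw [if_pos h2, Nat.mod_eq_zero_of_dvd h2]
    simp
  · rw [if_neg h2]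
    apply card_pair
    intro h3
    exact h2 (Nat.dvd_of_mod_eq_zero h3.symm)

lemma adm_iff (a : ℕ) :
    Pool.Agent.Y820.LF.AdmF (Pool.Agent.Y820.LF.C1 (fun _ : Fin 1 => (-1 : ℤ))) (Pool.Agent.Y820.LF.H1 (fun _ : Fin 1 => (a : ℤ))) ↔ 2 ∣ a := by
  unfold Pool.Agent.Y820.LF.AdmF
  constructor
  · intro h
    have h1 := h 2 Nat.prime_two
    rw [nu_eq a 2 Nat.prime_two] at h1
    by_contra hcon
    rw [if_neg hcon] at h1
    omega
  · intro h p hp
    rw [nu_eq a p hp]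
    split_ifs with h1
    · exact hp.one_lt
    · have h2 := hp.two_le
      have h3 : p ≠ 2 := fun h4 => h1 (by rw [h4]; exact h)
      omega

/-- the limit of the singular series -/
lemma sing_lim (a : ℕ) (ha : a ≠ 0) (h2 : 2 ∣ a) :
    Tendsto (Pool.Agent.Y820.LF.singF (Pool.Agent.Y820.LF.C1 (fun _ : Fin 1 => (-1 : ℤ))) (Pool.Agent.Y820.LF.H1 (fun _ : Fin 1 => (a : ℤ)))) atTop (nhds (sing a)) := by
  have hfac : ∀ p : ℕ, 3 ≤ p → 0 < 1 - 1 / ((p : ℝ) - 1) ^ 2 := fun p hp => Pool.Agent.TH894.SM.fac_pos p hp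
  have hanti : Antitone (fun z : ℕ => ∏ p ∈ (Icc 3 z).filter Nat.Prime, (1 - 1 / ((p : ℝ) - 1) ^ 2)) := by
    intro z z' hzz
    have hsub : (Icc 3 z).filter Nat.Prime ⊆ (Icc 3 z').filter Nat.Prime := filter_subset_filter _ (Icc_subset_Icc le_rfl hzz)
    simp only
    rw [← prod_sdiff hsub]
    have h3 : ∏ p ∈ (Icc 3 z').filter Nat.Prime \ (Icc 3 z).filter Nat.Prime, (1 - 1 / ((p : ℝ) - 1) ^ 2) ≤ 1 := by
      apply prod_le_one
      · intro p hp
        exact (hfac p (mem_Icc.1 (mem_filter.1 (mem_sdiff.1 hp).1).1).1).le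
      · intro p _
        have : 0 ≤ 1 / ((p : ℝ) - 1) ^ 2 := by positivity
        linarith
    have h4 : 0 ≤ ∏ p ∈ (Icc 3 z).filter Nat.Prime, (1 - 1 / ((p : ℝ) - 1) ^ 2) :=
      prod_nonneg fun p hp => (hfac p (mem_Icc.1 (mem_filter.1 hp).1).1).le
    calc _ ≤ 1 * ∏ p ∈ (Icc 3 z).filter Nat.Prime, (1 - 1 / ((p : ℝ) - 1) ^ 2) := mul_le_mul_of_nonneg_right h3 h4
      _ = _ := one_mul _
  have hbdd : BddBelow (Set.range (fun z : ℕ => ∏ p ∈ (Icc 3 z).filter Nat.Prime, (1 - 1 / ((p : ℝ) - 1) ^ 2))) := by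
    refine ⟨0, ?_⟩
    rintro _ ⟨z, rfl⟩
    exact prod_nonneg fun p hp => (hfac p (mem_Icc.1 (mem_filter.1 hp).1).1).le
  have hlim := (tendsto_atTop_ciInf hanti hbdd).const_mul 2
  have hlim2 := hlim.mul_const (∏ p ∈ a.primeFactors.filter (fun p => 2 < p), ((p : ℝ) - 1) / ((p : ℝ) - 2))
  refine Tendsto.congr' ?_ hlim2
  filter_upwards [eventually_ge_atTop (a + 2)] with z hz
  unfold Pool.Agent.Y820.LF.singF
  have hset : (Icc 1 z).filter Nat.Prime = insert 2 ((Icc 3 z).filter Nat.Prime) := by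
    ext p
    rw [mem_filter, mem_insert, mem_filter, mem_Icc, mem_Icc]
    constructor
    · rintro ⟨h3, h4⟩
      have := h4.two_le
      rcases this.eq_or_lt with h5 | h5
      · exact Or.inl h5.symm
      · exact Or.inr ⟨⟨h5, h3.2⟩, h4⟩
    · rintro (h3 | h3)
      · rw [h3]
        exact ⟨⟨by omega, by omega⟩, Nat.prime_two⟩
      · exact ⟨⟨by omega, h3.1.2⟩, h3.2⟩
  rw [hset, prod_insert (by simp), nu_eq a 2 Nat.prime_two, if_pos h2]
  have h3 : ∏ p ∈ (Icc 3 z).filter Nat.Prime, (1 - ((Pool.Agent.Y820.LF.nuF (Pool.Agent.Y820.LF.C1 (fun _ : Fin 1 => (-1 : ℤ))) (Pool.Agent.Y820.LF.H1 (fun _ : Fin 1 => (a : ℤ))) p : ℕ) : ℝ) / p) / (1 - 1 / (p : ℝ)) ^ (1 + 1) =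
      (∏ p ∈ (Icc 3 z).filter Nat.Prime, (1 - 1 / ((p : ℝ) - 1) ^ 2)) * ∏ p ∈ (Icc 3 z).filter Nat.Prime, (if p ∣ a then ((p : ℝ) - 1) / ((p : ℝ) - 2) else 1) := by
    rw [← prod_mul_distrib]
    apply prod_congr rfl
    intro p hp
    rw [mem_filter, mem_Icc] at hp
    have hp3 : (3 : ℝ) ≤ p := by exact_mod_cast hp.1.1
    have e1 : (p : ℝ) - 1 ≠ 0 := by linarith
    have e2 : (p : ℝ) - 2 ≠ 0 := by linarith
    have e3 : (p : ℝ) ≠ 0 := by linarith
    have e4 : 1 - 1 / (p : ℝ) ≠ 0 := by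
      have : 1 - 1 / (p : ℝ) = (p - 1) / p := by field_simp
      rw [this]
      exact div_ne_zero e1 e3
    rw [nu_eq a p hp.2]
    split_ifs with h4
    · rw [Nat.cast_one]
      have e5 : (1 : ℝ) - 1 / ((p : ℝ) - 1) ^ 2 = p * (p - 2) / (p - 1) ^ 2 := by
        field_simp
        ring
      rw [e5, show (1 : ℝ) - 1 / (p : ℝ) = (p - 1) / p by field_simp]
      have e6 : ((p : ℝ) - 1) / p / (((p : ℝ) - 1) / p) ^ (1 + 1) = p / (p - 1) := by
        rw [div_pow, div_div_div_eq, div_eq_div_iff (mul_ne_zero e3 (pow_ne_zero _ e1)) e1]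
        ring
      have e7 : (p : ℝ) * (p - 2) / (p - 1) ^ 2 * ((p - 1) / (p - 2)) = p / (p - 1) := by
        rw [div_mul_div_comm, div_eq_div_iff (mul_ne_zero (pow_ne_zero _ e1) e2) e1]
        ring
      rw [e6, e7]
    · have e5 : (1 : ℝ) - 1 / ((p : ℝ) - 1) ^ 2 = p * (p - 2) / (p - 1) ^ 2 := by
        field_simp
        ring
      rw [e5, show (1 : ℝ) - 1 / (p : ℝ) = (p - 1) / p by field_simp]
      push_cast
      field_simp
  rw [h3]
  have h4 : ∏ p ∈ (Icc 3 z).filter Nat.Prime, (if p ∣ a then ((p : ℝ) - 1) / ((p : ℝ) - 2) else 1) =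
      ∏ p ∈ a.primeFactors.filter (fun p => 2 < p), ((p : ℝ) - 1) / ((p : ℝ) - 2) := by
    rw [← prod_filter]
    apply prod_congr _ (fun _ _ => rfl)
    ext p
    rw [mem_filter, mem_filter, mem_Icc, mem_filter, Nat.mem_primeFactors]
    constructor
    · rintro ⟨⟨h5, h6⟩, h7⟩
      exact ⟨⟨h6, h7, ha⟩, by omega⟩
    · rintro ⟨⟨h5, h6, _⟩, h7⟩
      have := Nat.le_of_dvd (Nat.pos_of_ne_zero ha) h6
      exact ⟨⟨⟨by omega, by omega⟩, h5⟩, h6⟩
  rw [h4]
  push_cast
  norm_num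
  ring

/-- the count -/
lemma count_eq (a : ℕ) (ha : 1 ≤ a) :
    Pool.Agent.Y820.LF.cntF (Pool.Agent.Y820.LF.C1 (fun _ : Fin 1 => (-1 : ℤ))) (Pool.Agent.Y820.LF.H1 (fun _ : Fin 1 => (a : ℤ))) (a - 1) = g a := by
  rw [Pool.Agent.Y820.LF.cntF_C1]
  unfold g
  apply card_bij (fun n _ => (n, a - n))
  · intro n hn
    rw [mem_filter, mem_Icc] at hn
    rw [mem_filter, Finset.HasAntidiagonal.mem_antidiagonal]
    have h1 := hn.2.2 0
    have e : (-1 * (n : ℤ) + (a : ℤ)).toNat = a - n := by omega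
    rw [e] at h1
    exact ⟨by omega, hn.2.1, h1⟩
  · intro n _ m _ h
    exact (Prod.mk.injEq _ _ _ _ ▸ h).1
  · intro q hq
    rw [mem_filter, Finset.HasAntidiagonal.mem_antidiagonal] at hq
    have h1 := hq.2.1.two_le
    have h2 := hq.2.2.two_le
    refine ⟨q.1, ?_, ?_⟩
    · rw [mem_filter, mem_Icc]
      refine ⟨⟨by omega, by omega⟩, hq.2.1, fun _ => ?_⟩
      have e : (-1 * (q.1 : ℤ) + (a : ℤ)).toNat = q.2 := by omega
      rw [e]
      exact hq.2.2
    · ext
      · rfl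
      · simp only
        omega

/-- the weights at neighbouring integers -/
lemma shift_one (ε : ℝ) (hε : 0 < ε) : ∃ n0 : ℕ, 3 ≤ n0 ∧ ∀ n : ℕ, n0 ≤ n → ∀ c G : ℝ, 0 < G →
    |c - G * (((n - 1 : ℕ) : ℝ) / Real.log ((n - 1 : ℕ) : ℝ) ^ 2)| ≤ min ε 1 / 4 * (G * (((n - 1 : ℕ) : ℝ) / Real.log ((n - 1 : ℕ) : ℝ) ^ 2)) →
    |c - G * ((n : ℝ) / Real.log n ^ 2)| ≤ ε * (G * ((n : ℝ) / Real.log n ^ 2)) := by
  obtain ⟨n1, hn1⟩ : ∃ n1 : ℕ, 16 / min ε 1 ≤ n1 := ⟨_, Nat.le_ceil _⟩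
  refine ⟨n1 + 5, by omega, fun n hn c G hG hc => ?_⟩
  have he0 : 0 < min ε 1 := lt_min hε one_pos
  have he1 : min ε 1 ≤ ε := min_le_left _ _
  have he2 : min ε 1 ≤ 1 := min_le_right _ _
  obtain ⟨e, hed⟩ : ∃ e, e = min ε 1 := ⟨_, rfl⟩
  rw [← hed] at he0 he1 he2 hc hn1
  obtain ⟨M, hM⟩ : ∃ M : ℝ, M = ((n - 1 : ℕ) : ℝ) := ⟨_, rfl⟩
  have hMn : (n : ℝ) = M + 1 := by
    rw [hM]
    have : n = (n - 1) + 1 := by omega
    exact_mod_cast this
  rw [← hM] at hc
  have hM4 : (4 : ℝ) ≤ M := by rw [hM]; exact_mod_cast (by omega : 4 ≤ n - 1)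
  have hMn1 : 16 / e ≤ M := by
    refine hn1.trans ?_
    rw [hM]
    exact_mod_cast (by omega : n1 ≤ n - 1)
  have hM0 : 0 < M := by linarith
  have hMe : 16 ≤ e * M := by
    rw [div_le_iff₀ he0] at hMn1
    linarith
  have hlM : 1 ≤ Real.log M := by
    rw [Real.le_log_iff_exp_le hM0]
    have := Real.exp_one_lt_d9
    linarith
  have hlog1 : Real.log M ≤ Real.log (M + 1) := Real.log_le_log hM0 (by linarith)
  have hlog2 : Real.log (M + 1) ≤ Real.log M + 1 / M := by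
    have h1 : Real.log (M + 1) = Real.log M + Real.log (1 + 1 / M) := by
      rw [← Real.log_mul hM0.ne' (by positivity)]
      congr 1
      field_simp
    have h2 : Real.log (1 + 1 / M) ≤ 1 + 1 / M - 1 := Real.log_le_sub_one_of_pos (by positivity)
    linarith
  rw [hMn]
  obtain ⟨l, hl⟩ : ∃ l, l = Real.log M := ⟨_, rfl⟩
  obtain ⟨l', hl'⟩ : ∃ l', l' = Real.log (M + 1) := ⟨_, rfl⟩
  rw [← hl] at hc hlM hlog1 hlog2
  rw [← hl'] at hlog1 hlog2 ⊢
  have hl0 : 0 < l := by linarith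
  have hl'0 : 0 < l' := by linarith
  -- the quotient of the two weights
  obtain ⟨f, hf⟩ : ∃ f, f = M / l ^ 2 := ⟨_, rfl⟩
  obtain ⟨f', hf'⟩ : ∃ f', f' = (M + 1) / l' ^ 2 := ⟨_, rfl⟩
  have hf0 : 0 < f := by rw [hf]; positivity
  have hf'0 : 0 < f' := by rw [hf']; positivity
  have hup : f ≤ (1 + 3 / M) * f' := by
    rw [hf, hf', div_le_iff₀ (by positivity)]
    have h1 : l' ≤ l * (1 + 1 / M) := by
      have : 1 / M ≤ l * (1 / M) := le_mul_of_one_le_left (by positivity) hlM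
      linarith
    have h2 : l' ^ 2 ≤ (l * (1 + 1 / M)) ^ 2 := pow_le_pow_left₀ hl'0.le h1 2
    have h3 : (1 + 1 / M) ^ 2 ≤ 1 + 3 / M := by
      have h4 : 1 / M ≤ 1 := by rw [div_le_one hM0]; linarith
      have h5 : 0 < 1 / M := by positivity
      have h6 : 3 / M = 3 * (1 / M) := by ring
      rw [h6]
      nlinarith
    have h4 : l' ^ 2 ≤ l ^ 2 * (1 + 3 / M) := by
      calc l' ^ 2 ≤ (l * (1 + 1 / M)) ^ 2 := h2
        _ = l ^ 2 * (1 + 1 / M) ^ 2 := by ring
        _ ≤ _ := mul_le_mul_of_nonneg_left h3 (by positivity)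
    have h5 : (1 + 3 / M) * ((M + 1) / l' ^ 2) * l ^ 2 = (M + 1) * ((l ^ 2 * (1 + 3 / M)) / l' ^ 2) := by ring
    rw [h5]
    have h6 : 1 ≤ (l ^ 2 * (1 + 3 / M)) / l' ^ 2 := by
      rw [one_le_div (by positivity)]
      exact h4
    nlinarith
  have hlo : f' ≤ (1 + 1 / M) * f := by
    rw [hf, hf', div_le_iff₀ (by positivity)]
    have h2 : l ^ 2 ≤ l' ^ 2 := pow_le_pow_left₀ hl0.le hlog1 2
    have h5 : (1 + 1 / M) * (M / l ^ 2) * l' ^ 2 = (M + 1) * (l' ^ 2 / l ^ 2) := by field_simp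
    rw [h5]
    have h6 : 1 ≤ l' ^ 2 / l ^ 2 := by
      rw [one_le_div (by positivity)]
      exact h2
    nlinarith
  have hs : 3 / M ≤ e / 4 := by
    rw [div_le_div_iff₀ hM0 (by norm_num)]
    linarith
  have hs2 : 1 / M ≤ e / 4 := by
    rw [div_le_div_iff₀ hM0 (by norm_num)]
    linarith
  rw [← hf] at hc
  rw [← hf']
  have hdf : |f - f'| ≤ e / 4 * f' + e / 4 * f := by
    rw [abs_le]
    have h1 : (1 + 3 / M) * f' ≤ (1 + e / 4) * f' := mul_le_mul_of_nonneg_right (by linarith) hf'0.le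
    have h2 : (1 + 1 / M) * f ≤ (1 + e / 4) * f := mul_le_mul_of_nonneg_right (by linarith) hf0.le
    have h3 : 0 ≤ e / 4 * f := by positivity
    have h4 : 0 ≤ e / 4 * f' := by positivity
    constructor <;> linarith
  have hff : f ≤ (1 + e / 4) * f' := hup.trans (mul_le_mul_of_nonneg_right (by linarith) hf'0.le)
  have key : |c - G * f'| ≤ e / 4 * (G * f) + G * (e / 4 * f' + e / 4 * f) := by
    calc |c - G * f'| = |(c - G * f) + G * (f - f')| := by congr 1; ring
      _ ≤ |c - G * f| + |G * (f - f')| := abs_add_le _ _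
      _ ≤ _ := by
          rw [abs_mul, abs_of_pos hG]
          exact add_le_add hc (mul_le_mul_of_nonneg_left hdf hG.le)
  refine key.trans ?_
  have h1 : G * f ≤ G * ((1 + e / 4) * f') := mul_le_mul_of_nonneg_left hff hG.le
  have h2 : 0 < G * f' := mul_pos hG hf'0
  have h3 : G * ((1 + e / 4) * f') ≤ 5 / 4 * (G * f') := by nlinarith
  calc e / 4 * (G * f) + G * (e / 4 * f' + e / 4 * f) = e / 2 * (G * f) + e / 4 * (G * f') := by ring
    _ ≤ e / 2 * (5 / 4 * (G * f')) + e / 4 * (G * f') := by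
        have := mul_le_mul_of_nonneg_left (h1.trans h3) (show 0 ≤ e / 2 by linarith)
        linarith
    _ = 7 / 8 * e * (G * f') := by ring
    _ ≤ ε * (G * f') := by
        apply mul_le_mul_of_nonneg_right _ h2.le
        linarith

/-- For all `b ≥ 2`, `m ≥ 1` and `ε, ρ, θ > 0` there are `K` and `X₀` with the following property. Let `X ≥ X₀` and let `T`
be an ARBITRARY finite set of even integers between `X / m` and `X` (of any size). There is a set `S` of at most `K`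
exponents, with `d = ∑_{ν ∈ S} b ^ ν ≤ θ X`, such that for all but at most `ρ |T|` of the elements `n` of `T` (in
particular for all of them if `ρ |T| < 1`) the number of the representations of `n + d` as a sum of two primes agrees
with the prediction of Hardy and Littlewood up to a relative error of `ε`, and lies between `(1 - ε) C₂` and `1 + ε`
times `(n + d)² / (φ(n + d) log² (n + d))`. -/
theorem result (b m : ℕ) (hb : 2 ≤ b) (hm : 1 ≤ m) (ε ρ θ : ℝ) (hε : 0 < ε) (hρ : 0 < ρ) (hθ : 0 < θ) :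
    ∃ K X₀ : ℕ, ∀ X : ℕ, X₀ ≤ X → ∀ T : Finset ℕ, (∀ n ∈ T, 2 ∣ n ∧ n ≤ X ∧ X ≤ m * n) →
      ∃ S : Finset ℕ, S.card ≤ K ∧ ∑ ν ∈ S, (b : ℝ) ^ ν ≤ θ * X ∧
        ∃ E ⊆ T, (E.card : ℝ) ≤ ρ * T.card ∧ ∀ n ∈ T, n ∉ E → 2 ∣ n + ∑ ν ∈ S, b ^ ν ∧ Holds ε (n + ∑ ν ∈ S, b ^ ν) := by
  obtain ⟨K, X₀, hmain⟩ := Pool.Agent.Y820.LF.con1u b hb 1 le_rfl 1 1 (4 * m) le_rfl (by omega) (min ε 1 / 4) ρ (min θ 1 / 2)
    (by have := lt_min hε one_pos; linarith) hρ (by have := lt_min hθ one_pos; linarith) (by have := min_le_right θ 1; linarith)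
  obtain ⟨n0, hn3, hn0⟩ := shift_one ε hε
  refine ⟨K, X₀ + m * (n0 + 4), fun X hX T hT => ?_⟩
  have hmn : m * (n0 + 4) ≤ X := by omega
  have hX1 : 1 ≤ X := le_trans (by nlinarith) hmn
  have hX0 : (0 : ℝ) < X := by exact_mod_cast (by omega : 0 < X)
  obtain ⟨S, hS1, hS2, E, hET, hEc, hE⟩ := hmain (2 * X) (by omega) (fun _ => 1) (fun _ => Or.inl rfl) ℕ T (fun _ _ => -1)
    (fun n _ => (n : ℤ)) (fun _ _ _ => ⟨by norm_num, by norm_num⟩) (fun n hn _ => by
      have h1 := (hT n hn).2.1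
      rw [abs_of_nonneg (by positivity)]
      push_cast
      have : (n : ℤ) ≤ X := by exact_mod_cast h1
      linarith)
  have hsz : ∑ ν ∈ S 0, (b : ℝ) ^ ν ≤ min θ 1 * X := by
    refine (hS2 0).trans (le_of_eq ?_)
    push_cast
    ring
  refine ⟨S 0, hS1 0, hsz.trans (mul_le_mul_of_nonneg_right (min_le_left _ _) hX0.le), E, hET, hEc, fun n hn hnE => ?_⟩
  obtain ⟨h2n, hnX, hXn⟩ := hT n hn
  obtain ⟨a, ha⟩ : ∃ a, a = n + ∑ ν ∈ S 0, b ^ ν := ⟨_, rfl⟩
  rw [← ha]
  obtain ⟨hadm, G, hG0, hG1, hG2⟩ := hE n hn hnE (fun _ => (a : ℤ)) (fun i => by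
    have : i = 0 := Subsingleton.elim _ _
    rw [this, ha]
    push_cast
    ring) ((adm_iff n).2 h2n)
  have h2a : 2 ∣ a := (adm_iff a).1 hadm
  have hnb : n0 + 4 ≤ n := by
    by_contra hcon
    push Not at hcon
    have : m * n < m * (n0 + 4) := Nat.mul_lt_mul_of_pos_left hcon hm
    omega
  have hna : n ≤ a := by rw [ha]; exact Nat.le_add_right _ _
  have haX : a ≤ 2 * X := by
    have h1 : ((∑ ν ∈ S 0, b ^ ν : ℕ) : ℝ) ≤ X := by
      push_cast
      refine hsz.trans ?_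
      have := mul_le_mul_of_nonneg_right (min_le_right θ 1) hX0.le
      rwa [one_mul] at this
    have h2 : ∑ ν ∈ S 0, b ^ ν ≤ X := by exact_mod_cast h1
    omega
  have hG : G = sing a := tendsto_nhds_unique hG1 (sing_lim a (by omega) h2a)
  have h1 := hG2 (a - 1) (by omega) (by
    have e1 : m * n ≤ m * a := Nat.mul_le_mul_left _ hna
    have e2 : 4 * m * (a - 1) = 4 * (m * a) - 4 * m := by
      rw [Nat.mul_sub, mul_one, mul_assoc]
    have e3 : 4 * m ≤ m * a := by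
      calc 4 * m = m * 4 := by ring
        _ ≤ m * a := Nat.mul_le_mul_left _ (by omega)
    omega) (by
    intro i
    refine Fin.cases ?_ (fun i => ?_) i
    · rw [Pool.Agent.Y820.LF.C1_zero, Pool.Agent.Y820.LF.H1_zero]
      constructor <;> omega
    · rw [Pool.Agent.Y820.LF.C1_succ, Pool.Agent.Y820.LF.H1_succ]
      constructor <;> omega)
  rw [count_eq a (by omega)] at h1
  refine ⟨h2a, holds_of ε hε a (by omega) h2a ?_⟩
  have h3 := hn0 a (by omega) (g a) G hG0 h1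
  unfold HL
  rw [← hG]
  exact h3

end Pool.Agent.Results.MP_629a14_nt.TranslatesOfArbitrarySets
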